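import Pool.Agent.W_9986fc_h15.CoD

/-!
# Affine torus bundles: classes with positive top power which contain symplectic forms

Let `f` be a smooth, properly discontinuous and cocompact action of the group `G` on `ℝ^b`, and let
`X` be an affine torus bundle over `ℝ^b / G`: a homomorphism `A : G →* GL_k(ℤ)` and smooth functions
`τ g : ℝ^b → ℝ^k` such that `(v, z) ↦ (A g v + τ g z, f g z)` is an action of `G` on `T^k × ℝ^b`. If
this action is free, then `M = (T^k × ℝ^b) / G` is a closed manifold (in general it is a closed
orbifold). The forms on `M` are the forms on `ℝ^k × ℝ^b` which are invariant under `G` and under the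
translations by `ℤ^k`.

Let `α` be a closed 2-form on `M` such that the integral of `α ^ n` is positive (`2 n = dim M`), let
`c` be the restriction of its class to the fibre, an alternating form on `ℝ^k`, and let `W` be the
kernel of `c`. If `W = 0` or `dim W > b` or `H^1(B; W^*) = 0`, then `α` is cohomologous to a
symplectic form, provided that the base `B = ℝ^b / G` has this property. For `b ≤ 3` this proviso is
not needed. So over a surface `B` every class with positive top power contains a symplectic form or
has a fibre class with a kernel of dimension exactly two.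
-/

set_option autoImplicit false

open Pool.Agent.W_9986fc_h15.Co
open Pool.Agent.W_9986fc_h15.Co.Bundle (FibreClass intM)

namespace Pool.Agent.Results.MP_9986fc_gt.AffineTorusBundles

theorem result (k b : ℕ) (G : Type) [Group G] (f : G → (Fin b → ℝ) → Fin b → ℝ) (hf : IsBase f)
    (X : Bundle k f) (hX : Oriented X.maps)
    (hS : 4 ≤ b → Oriented (Set.range f) → BaseEveryClass f)
    (n : ℕ) (π : Fin n × Fin 2 ≃ Fin k ⊕ Fin b) (χ : (Fin b → ℝ) → ℝ) (hχ : IsPart f χ)
    (α : (Fin k ⊕ Fin b) → (Fin k ⊕ Fin b) → (Fin k ⊕ Fin b → ℝ) → ℝ)
    (hα : ClosedForm2 X.maps α) (hpos : 0 < intM χ fun x => top π fun i j => α i j x)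
    (c : Matrix (Fin k) (Fin k) ℝ) (hc : FibreClass α c)
    (hH : c.rank < k → k ≤ c.rank + b → X.H1Zero c) :
    ∃ η, Form1 X.maps η ∧ ∀ x, 0 < top π fun i j => α i j x + d η i j x :=
  Pool.Agent.W_9986fc_h15.strong_main k b G f hf X hX hS n π χ hχ α hα hpos c hc hH

end Pool.Agent.Results.MP_9986fc_gt.AffineTorusBundles
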