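import Pool.Agent.W_9986fc_h15.CoD

/-!
# Affine torus bundles over surfaces: Q1

Let `M = (T^k × ℝ²) / G` be an oriented affine torus bundle over the closed surface (or 2-orbifold)
`ℝ² / G`, `2n = k + 2`, and let `α` be a closed 2-form on `M` such that the integral of `α ^ n` is
positive. Let `c` be the restriction of its class to the fibre. If the kernel `L` of `c` is a plane,
then suppose that the base is oriented, that `L` has an invariant complement, and that either no
nonzero linear functional on `L` is invariant, or the component in `L` of the real Euler class of the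
bundle is zero. Then `M` has a symplectic form compatible with the orientation.
-/

set_option autoImplicit false

open Pool.Agent.W_9986fc_h15.Co
open Pool.Agent.W_9986fc_h15.Co.Bundle (FibreClass intM)

namespace Pool.Agent.W_9986fc_h15.Old.TorusBundlesOverSurfaces

theorem result (k : ℕ) (G : Type) [Group G] (f : G → (Fin 2 → ℝ) → Fin 2 → ℝ) (hf : IsBase f)
    (X : Bundle k f) (hX : Oriented X.maps)
    (n : ℕ) (π : Fin n × Fin 2 ≃ Fin k ⊕ Fin 2) (χ : (Fin 2 → ℝ) → ℝ) (hχ : IsPart f χ)
    (α : (Fin k ⊕ Fin 2) → (Fin k ⊕ Fin 2) → (Fin k ⊕ Fin 2 → ℝ) → ℝ)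
    (hα : ClosedForm2 X.maps α) (hpos : 0 < intM χ fun x => top π fun i j => α i j x)
    (c : Matrix (Fin k) (Fin k) ℝ) (hc : FibreClass α c) (hH : c.rank + 2 = k → X.Good c) :
    ∃ s, ClosedForm2 X.maps s ∧ ∀ x, 0 < top π fun i j => s i j x :=
  Pool.Agent.W_9986fc_h15.weak_main k G f hf X hX n π χ hχ α hα hpos c hc hH

end Pool.Agent.W_9986fc_h15.Old.TorusBundlesOverSurfaces
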